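import Pool.Agent.Y885.TU4
import Pool.Agent.Y885.LA2
import Pool.Agent.J4H77.GB.LasNear

set_option autoImplicit false

/-! Prime tuples for all the shifts near many given tuples of integers at the same time, after the addition (or the
subtraction) of sums of very few elements of a given set. -/

namespace Pool.Agent.J4H77.TU
open Finset
open Pool.Agent.H373R2.T7
open Pool.Agent.W93.DG
open Pool.Agent.Y885
open Pool.Agent.W93.TD (HLs)

theorem las_tuples (s l Q T κ : ℕ) (hs : 1 ≤ s) (hl : 2 ≤ l) (hQ : 1 ≤ Q) : ∃ C : ℝ, ∀ (H B : ℕ) (ε : ℝ), 0 < ε →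
    ∃ N₀ : ℕ, ∀ D : Set ℕ, (∀ x : ℕ, 1 ≤ x → ∃ a ∈ D, x ≤ a ∧ a ≤ l * x) → ∀ N : ℕ, N₀ ≤ N →
    ∀ Y : Finset (Fin s → ℕ), (∀ y ∈ Y, ∀ i, N ≤ y i ∧ y i ≤ B * N) → (Y.card : ℝ) ≤ Real.log N ^ T →
    ∃ S : Fin s → Finset ℕ, (∀ i, ∀ a ∈ S i, a ∈ D ∧ Real.log N ^ H ≤ a ∧ (a : ℝ) ≤ N / Real.log N ^ H) ∧
      (∀ i, ((S i).card : ℝ) ≤ C * Real.log (Real.log N) ^ 2) ∧ (∀ i, Q ∣ ∑ a ∈ S i, a) ∧
      ∀ y ∈ Y, ∀ a : Fin s → ℕ,
        (∀ i, |(((a i : ℤ) - ((y i : ℤ) + ((∑ x ∈ S i, x : ℕ) : ℤ)) : ℤ) : ℝ)| ≤ Real.log N ^ κ ∨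
          |(((a i : ℤ) - ((y i : ℤ) - ((∑ x ∈ S i, x : ℕ) : ℤ)) : ℤ) : ℝ)| ≤ Real.log N ^ κ) → HLs ε (T + 1) N a := by
  classical
  obtain ⟨U, hU⟩ : ∃ U, U = T + 1 := ⟨_, rfl⟩
  rw [← hU]
  obtain ⟨κ', hκ'⟩ : ∃ κ', κ' = κ + 1 := ⟨_, rfl⟩
  obtain ⟨b, hb, C, hC⟩ := las_lawP l Q hl hQ (2 * (2 * (U + (κ' + 2) * s) + 5 + s + 2) + 6)
  refine ⟨C, fun H B ε hε => ?_⟩
  obtain ⟨e, he⟩ : ∃ e, e = B + 4 := ⟨_, rfl⟩
  obtain ⟨c, N₀, h0⟩ := hC H e
  obtain ⟨K₀, h1⟩ := tl_tuplesW s b 20 c (b ^ (e + 1)) U κ' hs hb (by norm_num) ε hε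
  obtain ⟨n1, hn1⟩ := ev_L' (2 ^ s * (Real.log b) ^ U + 6)
  obtain ⟨n2, hn2⟩ := ev_log' κ 8
  refine ⟨N₀ + n1 + n2 + b ^ K₀ + 16, fun D hD N hN Y hY hYc => ?_⟩
  have hbn : 0 < b := by omega
  have hbr : (2 : ℝ) ≤ b := by exact_mod_cast hb
  obtain ⟨K, hK⟩ : ∃ K, K = Nat.log b N + 1 + e := ⟨_, rfl⟩
  have hlogN : K₀ ≤ Nat.log b N := Nat.le_log_of_pow_le (by omega) (by omega)
  have hlow : b ^ (Nat.log b N) ≤ N := Nat.pow_log_le_self b (by omega)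
  have hup : N < b ^ (Nat.log b N + 1) := Nat.lt_pow_succ_log_self (by omega) _
  have hN16 : (16 : ℝ) ≤ N := by exact_mod_cast (by omega : 16 ≤ N)
  have hL := hn1 N (by omega)
  have hLW := hn2 N (by omega)
  have hN0 : 0 < N := by omega
  obtain ⟨L, hLd⟩ : ∃ L, L = Real.log (N : ℝ) := ⟨_, rfl⟩
  rw [← hLd] at hL hLW hYc
  have hlb0 : 0 < Real.log (b : ℝ) := Real.log_pos (by linarith)
  have hlbU : 0 < Real.log (b : ℝ) ^ U := by positivity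
  have h2s : 0 < (2 : ℝ) ^ s * Real.log b ^ U := by positivity
  have hL6 : 6 ≤ L := by linarith
  have hL0 : 0 < L := by linarith
  have hRN : L ^ κ ≤ N / 8 := by
    have h2 : √(N : ℝ) ≤ N := by
      rw [Real.sqrt_le_left (by linarith)]
      nlinarith
    linarith
  obtain ⟨R, hR⟩ : ∃ R, R = ⌊L ^ κ⌋₊ + 1 := ⟨_, rfl⟩
  have hR1 : L ^ κ ≤ R := by rw [hR]; push_cast; exact (Nat.lt_floor_add_one _).le
  have hR2 : (R : ℝ) ≤ L ^ κ + 1 := by
    rw [hR]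
    push_cast
    have := Nat.floor_le (show 0 ≤ L ^ κ by positivity)
    linarith
  have hR3 : 4 * R ≤ N := by
    have : 4 * (R : ℝ) ≤ N := by linarith
    exact_mod_cast this
  -- the law
  obtain ⟨n, Ω, pr, Sf, g1, g2, g3⟩ := h0 D hD N (by omega)
  rw [← hK] at g2
  have hpr : ∀ ω ∈ Ω, 0 ≤ pr := fun ω hω => g2.nonneg ω hω
  have hbB : B + 4 ≤ b ^ e := by
    have h3 : e < b ^ e := Nat.lt_pow_self (by omega)
    omega
  have hXK : (B + 4) * N ≤ b ^ K := by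
    calc (B + 4) * N ≤ b ^ e * b ^ (Nat.log b N + 1) := Nat.mul_le_mul hbB hup.le
      _ = b ^ K := by rw [← pow_add, hK]; congr 1; ring
  have hKN : b ^ K ≤ b ^ (e + 1) * N := by
    have h8 : b ^ K = b ^ (e + 1) * b ^ (Nat.log b N) := by rw [← pow_add, hK]; congr 1; ring
    rw [h8]
    exact Nat.mul_le_mul_left _ hlow
  have hNK : N ≤ b ^ K := le_trans (Nat.le_mul_of_pos_left _ (by omega)) hXK
  have hXKz : ((B : ℤ) + 4) * N ≤ (b : ℤ) ^ K := by exact_mod_cast hXK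
  obtain ⟨Yf, hYf⟩ : ∃ Yf : (Fin s → ℕ) → (Fin s → Bool) → Fin s → (Fin n → ℕ) → ℤ,
      Yf = fun (y : Fin s → ℕ) (t : Fin s → Bool) (i : Fin s) (ω : Fin n → ℕ) =>
    (if t i then (1 : ℤ) else -1) * ((∑ a ∈ Sf ω, a : ℕ) : ℤ) + ((y i : ℤ) - R) := ⟨_, rfl⟩
  have hbd : ∀ y ∈ Y, ∀ t i, ∀ ω ∈ Ω, 0 ≤ Yf y t i ω ∧ Yf y t i ω ≤ ((B : ℤ) + 1) * N := by
    intro y hy t i ω hω
    obtain ⟨y1, y2⟩ := hY y hy i
    obtain ⟨_, _, s3, _⟩ := g3 ω hω
    have s4 : (2 : ℤ) * ((∑ a ∈ Sf ω, a : ℕ) : ℤ) ≤ N := by exact_mod_cast s3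
    have s5 : (0 : ℤ) ≤ ((∑ a ∈ Sf ω, a : ℕ) : ℤ) := Nat.cast_nonneg _
    have s6 : (N : ℤ) ≤ y i := by exact_mod_cast y1
    have s7 : (y i : ℤ) ≤ B * N := by exact_mod_cast y2
    have s8 : (4 : ℤ) * R ≤ N := by exact_mod_cast hR3
    have s9 : (0 : ℤ) ≤ R := Nat.cast_nonneg _
    rw [hYf]
    simp only
    split_ifs
    · constructor <;> nlinarith
    · constructor <;> nlinarith
  have hNz : (0 : ℤ) < N := by exact_mod_cast hN0
  have hone : ∀ y ∈ Y, ∀ t : Fin s → Bool, ∑ ω ∈ Fintype.piFinset (fun _ : Fin s => Ω),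
      (if ¬ HLw ε U κ' N (fun i => (Yf y t i (ω i)).toNat) then ∏ _i : Fin s, pr else 0) ≤ 1 / (K : ℝ) ^ U := by
    intro y hy t
    refine h1 K (by omega) (Fin n → ℕ) inferInstance (fun _ => Ω) (fun _ _ => pr) (Yf y t) (fun i => ?_) (fun _ => g1) N hKN hNK
      (fun i ω hω => ?_) (fun ω => ¬ HLw ε U κ' N (fun i => (Yf y t i (ω i)).toNat)) inferInstance (fun ω hω h => ⟨fun i => ?_, h⟩)
    · rw [hYf]
      simp only
      cases t i
      · have h5 := (g2.neg).add ((y i : ℤ) - R)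
        refine h5.congr (fun ω _ => ?_)
        simp only [Bool.false_eq_true, if_false]
        ring
      · have h5 := g2.add ((y i : ℤ) - R)
        refine h5.congr (fun ω _ => ?_)
        simp only [if_true]
        ring
    · obtain ⟨b1, b2⟩ := hbd y hy t i ω hω
      have h3 : (0 : ℤ) < (b : ℤ) ^ K := by positivity
      constructor <;> nlinarith
    · rw [Fintype.mem_piFinset] at hω
      exact (hbd y hy t i (ω i) (hω i)).1
  -- the union bound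
  have hKlog : L ≤ K * Real.log b := by
    have h2 : Real.log (N : ℝ) ≤ Real.log ((b ^ K : ℕ) : ℝ) := by
      apply Real.log_le_log (by linarith)
      exact_mod_cast hNK
    rw [← hLd] at h2
    push_cast at h2
    rw [Real.log_pow] at h2
    exact h2
  have hK0 : (0 : ℝ) < K := by exact_mod_cast (by omega : 0 < K)
  have hfin : (((Y ×ˢ (univ : Finset (Fin s → Bool))).card : ℕ) : ℝ) * (1 / (K : ℝ) ^ U) < 1 := by
    rw [card_product, card_univ, Fintype.card_fun, Fintype.card_bool, Fintype.card_fin, Nat.cast_mul, mul_one_div,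
      div_lt_one (by positivity)]
    have h4 : L ^ U ≤ K ^ U * Real.log b ^ U := by
      rw [← mul_pow]
      exact pow_le_pow_left₀ hL0.le hKlog _
    have h5 : L ^ U = L ^ T * L := by rw [hU, pow_succ]
    have h6 : (Y.card : ℝ) * ((2 ^ s : ℕ) : ℝ) ≤ L ^ T * 2 ^ s := by
      push_cast
      exact mul_le_mul_of_nonneg_right hYc (by positivity)
    refine h6.trans_lt ?_
    have h7 : (L ^ T * 2 ^ s) * Real.log b ^ U < K ^ U * Real.log b ^ U := by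
      refine lt_of_lt_of_le ?_ h4
      rw [h5, mul_assoc]
      exact mul_lt_mul_of_pos_left (by linarith) (by positivity)
    exact lt_of_mul_lt_mul_right h7 hlbU.le
  have hsum1 : ∑ _ω ∈ Fintype.piFinset (fun _ : Fin s => Ω), ∏ _i : Fin s, pr = 1 := by
    have h2 := Finset.prod_univ_sum (fun _ : Fin s => Ω) (fun _ (_ : Fin n → ℕ) => pr)
    rw [← h2, g1]
    simp
  obtain ⟨ω, hω, hgood⟩ := Pool.Agent.J4H77.GB.exists_good (Fintype.piFinset (fun _ : Fin s => Ω)) (fun _ => ∏ _i : Fin s, pr)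
    hsum1 (Y ×ˢ (univ : Finset (Fin s → Bool))) (fun i ω => ¬ HLw ε U κ' N (fun j => (Yf i.1 i.2 j (ω j)).toNat))
    (1 / (K : ℝ) ^ U) (fun ω hω => by
      apply prod_nonneg
      intro i _
      rw [Fintype.mem_piFinset] at hω
      exact hpr (ω i) (hω i)) (by
      intro i hi
      rw [mem_product] at hi
      exact hone i.1 hi.1 i.2) hfin
  rw [Fintype.mem_piFinset] at hω
  refine ⟨fun i => Sf (ω i), fun i => (g3 (ω i) (hω i)).1, fun i => (g3 (ω i) (hω i)).2.1, fun i => (g3 (ω i) (hω i)).2.2.2, ?_⟩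
  intro y hy a hor
  rw [← hLd] at hor
  have hch : ∀ i, ∃ t : Bool, |(((a i : ℤ) - ((if t then (1 : ℤ) else -1) * ((∑ x ∈ Sf (ω i), x : ℕ) : ℤ) + y i) : ℤ) : ℝ)| ≤ L ^ κ := by
    intro i
    rcases hor i with h | h
    · refine ⟨true, ?_⟩
      simp only [if_true, one_mul]
      rw [add_comm (((∑ x ∈ Sf (ω i), x : ℕ) : ℤ))]
      exact h
    · refine ⟨false, ?_⟩
      have e1 : (a i : ℤ) - ((if (false = true) then (1 : ℤ) else -1) * ((∑ x ∈ Sf (ω i), x : ℕ) : ℤ) + y i) =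
          (a i : ℤ) - ((y i : ℤ) - ((∑ x ∈ Sf (ω i), x : ℕ) : ℤ)) := by
        simp only [Bool.false_eq_true, if_false]
        ring
      rw [e1]
      exact h
  choose t ht using hch
  have h6 := hgood (y, t) (by rw [mem_product]; exact ⟨hy, mem_univ _⟩)
  simp only [not_not] at h6
  -- the offsets
  obtain ⟨z, hz⟩ : ∃ z : Fin s → ℕ, ∀ i, (z i : ℤ) = Yf y t i (ω i) := by
    refine ⟨fun i => (Yf y t i (ω i)).toNat, fun i => ?_⟩
    exact Int.toNat_of_nonneg (hbd y hy t i (ω i) (hω i)).1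
  have hzt : ∀ i, (Yf y t i (ω i)).toNat = z i := fun i => by rw [← hz i, Int.toNat_natCast]
  simp only [hzt] at h6
  have hoff : ∀ i, ∃ d : ℕ, a i = z i + d ∧ (d : ℝ) ≤ L ^ κ' := by
    intro i
    have h7 := ht i
    have h8 := hz i
    rw [hYf] at h8
    simp only at h8
    obtain ⟨u, hu⟩ : ∃ u : ℤ, u = (a i : ℤ) - ((if t i then (1 : ℤ) else -1) * ((∑ x ∈ Sf (ω i), x : ℕ) : ℤ) + y i) := ⟨_, rfl⟩
    rw [← hu] at h7
    have h9 : (a i : ℤ) = z i + (u + R) := by rw [h8, hu]; ring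
    have h10 : |(u : ℝ)| ≤ R := h7.trans hR1
    have h11 : |u| ≤ (R : ℤ) := by exact_mod_cast h10
    have h12 := abs_le.1 h11
    obtain ⟨d, hd⟩ : ∃ d : ℕ, (d : ℤ) = u + R := ⟨(u + R).toNat, Int.toNat_of_nonneg (by linarith)⟩
    refine ⟨d, by rw [← hd] at h9; exact_mod_cast h9, ?_⟩
    have h13 : (d : ℤ) ≤ 2 * R := by rw [hd]; linarith
    have h14 : (d : ℝ) ≤ 2 * R := by exact_mod_cast h13
    have h15 : 1 ≤ L ^ κ := one_le_pow₀ (by linarith)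
    rw [hκ', pow_succ]
    nlinarith
  choose d hd1 hd2 using hoff
  rw [hLd] at hd2
  have h7 := h6 d hd2
  have h8 : a = fun i => z i + d i := funext hd1
  rw [h8]
  exact h7

end Pool.Agent.J4H77.TU
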